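import Pool.Agent.N551.EP.Dec

/-!
# Sums or products with every partner

`A`, `A_i`, `P_i` are finite sets of integers, `0 ∉ A`, `0 ∉ A_i`; `B`, `X`, `Y` are finite sets in a
field `F` of characteristic `0`, `0 ∉ B`, `0 ∉ Y` (all constants are independent of `F`).

1. (Few sums, arbitrary weights.) Let `K_i = |A_i + P_i| / |P_i|`. For all complex weights `w` on
   `A_1 × ... × A_r` and `f` on `B`
   `∑_g |∑_{x_1 ⋯ x_r b = g} w(x) f(b)|² ≤ C (∏ |P_i|^ε K_i^C) ‖w‖₂² ‖f‖₂^(2-2ε) ‖f‖₁^(2ε)`.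
   In particular the dilates `b A`, `b ∈ B`, of a set with few sums are almost disjoint on average,
   for any finite set `B` of dilations.
2. (Growth.) Either the number of the coincidences `x_1 ⋯ x_r b = x_1' ⋯ x_r' b'` with `x, x' ∈ H`,
   `b, b' ∈ B` is at most `C |A|^ε |H| |B|^(1+ε)`, for EVERY set `H` of `r`-tuples of elements of `A`,
   however sparse, and EVERY `B`; or `|m A| ≥ |A|^(1 + c log m)`.
3. (Decomposition.) For all `b`, `ε`, `r` there is `τ > 0` such that every `A` has a subset `B` with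
   `|{a + x = a' + x'}| ≤ |A|^(2-τ) |X|` (`a, a' ∈ B`) for EVERY `X` with at most `|A|^b` elements,
   and at most `C |A|^ε |H| |Y|^(1+ε)` coincidences `x_1 ⋯ x_r y = x_1' ⋯ x_r' y'` for EVERY
   `Y` and every set `H` of `r`-tuples in `A \ B`.
4. (Alternatives.) So every `A` has a subset `A'` with at least half of its elements such that either
   `|A' + X| ≥ c |A|^τ |X|` for every `X` with at most `|A|^b` elements, or
   `|A' Y| ≥ c |A|^(1-ε) |Y|^(1-ε)` for every `Y`.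
5. (Two partners.) For every `b` there is `τ > 0` with
   `max (|A + X| / |X|, |A Y| / |Y|) ≥ c |A|^τ` for all `X`, `Y` with at most `|A|^b` elements.

Proof: if every element of a commutative group has at most `R` representations as a product of
`k = 2^s` elements of a family, iterating the inequality of Cauchy and Schwarz in the group algebra
gives `‖u * v‖₂² ≤ R^(1/k) ‖u‖₂² ‖v‖₂^(2-2/k) ‖v‖₁^(2/k)` for the measures `u` on the family. The
numbers of factorisations are bounded in the starting library (`Y359.DB`, `Y359.LE`).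
-/

set_option autoImplicit false

namespace Pool.Agent.N551.Shelf.EveryPartner

open Finset Pool.Agent.N551.EP
open scoped Pointwise

theorem result :
    -- 1. sets with few sums, arbitrary weights
    (∀ (r : ℕ) (ε : ℝ), 0 < ε → ε ≤ 1 → ∃ C : ℝ, 0 < C ∧ ∀ A P : Fin r → Finset ℤ,
      (∀ i, (P i).Nonempty) → (∀ i, (0 : ℤ) ∉ A i) →
      ∀ (F : Type) [Field F] [CharZero F] [DecidableEq F] (B : Finset F), (0 : F) ∉ B →
      ∀ (w : (Fin r → ℤ) → ℂ) (f : F → ℂ),
      ∑ g ∈ (Fintype.piFinset A ×ˢ B).image (fun s => (∏ i, (s.1 i : F)) * s.2),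
        ‖∑ s ∈ (Fintype.piFinset A ×ˢ B).filter (fun s => (∏ i, (s.1 i : F)) * s.2 = g),
          w s.1 * f s.2‖ ^ 2 ≤
        C * (∏ i, (((P i).card : ℝ) ^ ε * (((A i + P i).card : ℝ) / (P i).card) ^ C)) *
          (∑ x ∈ Fintype.piFinset A, ‖w x‖ ^ 2) *
          ((∑ b ∈ B, ‖f b‖ ^ 2) ^ (1 - ε) * (∑ b ∈ B, ‖f b‖) ^ (2 * ε))) ∧
    -- 2. growth of the sumset, or every partner
    (∀ r : ℕ, 1 ≤ r → ∀ ε : ℝ, 0 < ε → ε ≤ 1 → ∃ c : ℝ, 0 < c ∧
      ∀ A : Finset ℤ, A.Nonempty → (0 : ℤ) ∉ A → ∀ m : ℕ, 2 ≤ m → (m : ℝ) ≤ Real.log A.card →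
      (∀ H ⊆ Fintype.piFinset (fun _ : Fin r => A),
        ∀ (F : Type) [Field F] [CharZero F] [DecidableEq F] (B : Finset F), (0 : F) ∉ B →
        c * ((((H ×ˢ B) ×ˢ (H ×ˢ B)).filter fun p =>
          (∏ i, (p.1.1 i : F)) * p.1.2 = (∏ i, (p.2.1 i : F)) * p.2.2).card : ℝ) ≤
          (A.card : ℝ) ^ ε * H.card * (B.card : ℝ) ^ (1 + ε)) ∨
      (A.card : ℝ) ^ (1 + c * Real.log m) ≤
        ((Fintype.piFinset fun _ : Fin m => A).image fun f => ∑ i, f i).card) ∧
    -- 3. decomposition of every finite set of integers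
    (∀ r : ℕ, 1 ≤ r → ∀ ε b : ℝ, 0 < ε → ε ≤ 1 → 0 < b → ∃ τ C : ℝ, 0 < τ ∧ 0 < C ∧
      ∀ A : Finset ℤ, (0 : ℤ) ∉ A → ∃ B ⊆ A,
      (∀ (F : Type) [Field F] [CharZero F] [DecidableEq F] (X : Finset F),
        (X.card : ℝ) ≤ (A.card : ℝ) ^ b →
        ((((B ×ˢ X) ×ˢ (B ×ˢ X)).filter fun p =>
          (p.1.1 : F) + p.1.2 = (p.2.1 : F) + p.2.2).card : ℝ) ≤
          (A.card : ℝ) ^ (2 - τ) * X.card) ∧
      (∀ H ⊆ Fintype.piFinset (fun _ : Fin r => A \ B),
        ∀ (F : Type) [Field F] [CharZero F] [DecidableEq F] (Y : Finset F), (0 : F) ∉ Y →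
        ((((H ×ˢ Y) ×ˢ (H ×ˢ Y)).filter fun p =>
          (∏ i, (p.1.1 i : F)) * p.1.2 = (∏ i, (p.2.1 i : F)) * p.2.2).card : ℝ) ≤
          C * (A.card : ℝ) ^ ε * H.card * (Y.card : ℝ) ^ (1 + ε))) ∧
    -- 4. alternatives: a large subset grows with every partner
    (∀ ε b : ℝ, 0 < ε → ε ≤ 1 → 0 < b → ∃ τ c : ℝ, 0 < τ ∧ 0 < c ∧
      ∀ A : Finset ℤ, (0 : ℤ) ∉ A → ∃ A' ⊆ A, A.card ≤ 2 * A'.card ∧
      ((∀ (F : Type) [Field F] [CharZero F] [DecidableEq F] (X : Finset F),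
        (X.card : ℝ) ≤ (A.card : ℝ) ^ b →
        c * ((A.card : ℝ) ^ τ * X.card) ≤ (((A' ×ˢ X).image fun s => (s.1 : F) + s.2).card : ℝ)) ∨
      (∀ (F : Type) [Field F] [CharZero F] [DecidableEq F] (Y : Finset F), Y.Nonempty →
        (0 : F) ∉ Y → c * ((A.card : ℝ) ^ (1 - ε) * (Y.card : ℝ) ^ (1 - ε)) ≤
          (((A' ×ˢ Y).image fun s => (s.1 : F) * s.2).card : ℝ)))) ∧
    -- 5. two partners
    (∀ b : ℝ, 0 < b → ∃ τ c : ℝ, 0 < τ ∧ 0 < c ∧
      ∀ A : Finset ℤ, A.Nonempty → (0 : ℤ) ∉ A →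
      ∀ (F : Type) [Field F] [CharZero F] [DecidableEq F] (X Y : Finset F),
      X.Nonempty → Y.Nonempty → (0 : F) ∉ Y →
      (X.card : ℝ) ≤ (A.card : ℝ) ^ b → (Y.card : ℝ) ≤ (A.card : ℝ) ^ b →
      c * (A.card : ℝ) ^ τ ≤ max
        ((((A ×ˢ X).image fun s => (s.1 : F) + s.2).card : ℝ) / X.card)
        ((((A ×ˢ Y).image fun s => (s.1 : F) * s.2).card : ℝ) / Y.card)) := by
  classical
  have hprod : ∀ (r : ℕ) (A : Fin r → Finset ℤ), (∀ i, (0 : ℤ) ∉ A i) →
      ∀ x ∈ Fintype.piFinset A, ∏ i, x i ≠ 0 := by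
    intro r A h0 x hx
    refine Finset.prod_ne_zero_iff.2 fun i _ h => h0 i ?_
    rw [← h]
    exact Fintype.mem_piFinset.1 hx i
  have hcast : ∀ (F : Type) [Field F] [CharZero F] [DecidableEq F] (r : ℕ)
      (H : Finset (Fin r → ℤ)) (B : Finset F),
      wE H B (fun _ => 1) (fun _ => 1) = ((((H ×ˢ B) ×ˢ (H ×ˢ B)).filter fun p =>
        (∏ i, (p.1.1 i : F)) * p.1.2 = (∏ i, (p.2.1 i : F)) * p.2.2).card : ℝ) := by
    intro F _ _ _ r H B
    rw [wE_one]
    congr 2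
    ext p
    simp only [Finset.mem_filter, Int.cast_prod]
  have haE : ∀ (F : Type) [Field F] [CharZero F] [DecidableEq F] (A : Finset ℤ) (X : Finset F),
      aE A X = (((A ×ˢ X) ×ˢ (A ×ˢ X)).filter fun p =>
          (p.1.1 : F) + p.1.2 = (p.2.1 : F) + p.2.2).card := by
    intro F _ _ _ A X
    rw [aE]
    congr 1
    ext p
    simp only [Finset.mem_filter]
  have hcs : ∀ {α β : Type} [DecidableEq β] (Q S : Finset α) (φ : α → β) (E : ℝ), Q ⊆ S →
      (((S ×ˢ S).filter fun p => φ p.1 = φ p.2).card : ℝ) ≤ E →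
      (Q.card : ℝ) ^ 2 ≤ E * ((Q.image φ).card : ℝ) := by
    intro α β _ Q S φ E hQS hE
    refine (card_sq_le Q φ).trans ?_
    rw [mul_comm]
    refine mul_le_mul_of_nonneg_right (le_trans ?_ hE) (Nat.cast_nonneg _)
    exact_mod_cast Finset.card_le_card (Finset.filter_subset_filter _
      (Finset.product_subset_product hQS hQS))
  -- the fourth part
  have h5 : ∀ ε b : ℝ, 0 < ε → ε ≤ 1 → 0 < b → ∃ τ c : ℝ, 0 < τ ∧ 0 < c ∧
      ∀ A : Finset ℤ, (0 : ℤ) ∉ A → ∃ A' ⊆ A, A.card ≤ 2 * A'.card ∧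
      ((∀ (F : Type) [Field F] [CharZero F] [DecidableEq F] (X : Finset F),
        (X.card : ℝ) ≤ (A.card : ℝ) ^ b →
        c * ((A.card : ℝ) ^ τ * X.card) ≤ (((A' ×ˢ X).image fun s => (s.1 : F) + s.2).card : ℝ)) ∨
      (∀ (F : Type) [Field F] [CharZero F] [DecidableEq F] (Y : Finset F), Y.Nonempty →
        (0 : F) ∉ Y → c * ((A.card : ℝ) ^ (1 - ε) * (Y.card : ℝ) ^ (1 - ε)) ≤
          (((A' ×ˢ Y).image fun s => (s.1 : F) * s.2).card : ℝ))) := by
    intro ε b hε hε1 hb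
    obtain ⟨τ, hτ, C, hC, hdec⟩ := decomp 1 le_rfl ε b hε hε1 hb
    refine ⟨τ, min (1 / 4) (1 / (2 * C)), hτ, by positivity, ?_⟩
    intro A hA0
    have hc4 : min (1 / 4) (1 / (2 * C)) ≤ 1 / 4 := min_le_left _ _
    have hcC : min (1 / 4) (1 / (2 * C)) ≤ 1 / (2 * C) := min_le_right _ _
    have hc0 : 0 < min (1 / 4) (1 / (2 * C)) := by positivity
    generalize min (1 / 4) (1 / (2 * C)) = c at hc4 hcC hc0
    rcases A.eq_empty_or_nonempty with hA | hA
    · subst hA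
      refine ⟨∅, le_rfl, by simp, Or.inl ?_⟩
      intro F _ _ _ X _
      simp [Real.zero_rpow hτ.ne']
    have ha0 : (0 : ℝ) < A.card := by exact_mod_cast Finset.card_pos.2 hA
    obtain ⟨B, hBA, hadd, hmul⟩ := hdec A
    rcases le_or_gt A.card (2 * B.card) with hbig | hsmall
    · refine ⟨B, hBA, hbig, Or.inl ?_⟩
      intro F _ _ _ X hX
      rcases X.eq_empty_or_nonempty with hX0 | hX0
      · subst hX0
        simp
      have hx0 : (0 : ℝ) < X.card := by exact_mod_cast Finset.card_pos.2 hX0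
      have h1 := hadd F X hX
      rw [haE] at h1
      have h2 := hcs (B ×ˢ X) (B ×ˢ X) (fun s => (s.1 : F) + s.2) _ le_rfl h1
      rw [Finset.card_product] at h2
      push_cast at h2
      have h3 : (A.card : ℝ) ≤ 2 * B.card := by exact_mod_cast hbig
      set I : ℝ := (((B ×ˢ X).image fun s => (s.1 : F) + s.2).card : ℝ) with hI
      have hI0 : 0 ≤ I := Nat.cast_nonneg _
      have e : (A.card : ℝ) ^ (2 : ℝ) = (A.card : ℝ) ^ (2 - τ) * (A.card : ℝ) ^ τ := by
        rw [← Real.rpow_add ha0]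
        congr 1
        ring
      have e2 : (A.card : ℝ) ^ (2 : ℝ) = (A.card : ℝ) ^ 2 := by
        rw [← Real.rpow_natCast]
        norm_num
      have hp : 0 < (A.card : ℝ) ^ (2 - τ) := Real.rpow_pos_of_pos ha0 _
      have h4 : (A.card : ℝ) ^ (2 - τ) * (A.card : ℝ) ^ τ * (X.card : ℝ) ^ 2 ≤
          4 * ((A.card : ℝ) ^ (2 - τ) * X.card * I) := by
        rw [← e, e2]
        have : ((A.card : ℝ) * X.card) ^ 2 ≤ (2 * B.card * X.card) ^ 2 :=
          pow_le_pow_left₀ (by positivity) (by nlinarith) 2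
        nlinarith
      have h6 : (A.card : ℝ) ^ τ * X.card ≤ 4 * I := by
        have h7 : ((A.card : ℝ) ^ (2 - τ) * X.card) * ((A.card : ℝ) ^ τ * X.card) ≤
            ((A.card : ℝ) ^ (2 - τ) * X.card) * (4 * I) := by nlinarith
        exact le_of_mul_le_mul_left h7 (by positivity)
      have h8 : 0 ≤ (A.card : ℝ) ^ τ * X.card := by positivity
      nlinarith
    · refine ⟨A \ B, Finset.sdiff_subset, ?_, Or.inr ?_⟩
      · have := Finset.card_sdiff_add_card_eq_card hBA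
        omega
      intro F _ _ _ Y hY0 hY
      have hy0 : (0 : ℝ) < Y.card := by exact_mod_cast Finset.card_pos.2 hY0
      set H : Finset (Fin 1 → ℤ) := Fintype.piFinset (fun _ : Fin 1 => A \ B) with hH
      have h1 := set_form H Y _ ε hε (hmul H le_rfl (hprod 1 _ fun _ h => hA0
        (Finset.sdiff_subset h)) F Y hY (fun _ => 1) (fun _ => 1) fun _ _ => zero_le_one)
      rw [hcast] at h1
      have h2 := hcs (H ×ˢ Y) (H ×ˢ Y) (fun s => (∏ i, (s.1 i : F)) * s.2) _ le_rfl h1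
      have h3 : (H ×ˢ Y).image (fun s => (∏ i, (s.1 i : F)) * s.2) =
          ((A \ B) ×ˢ Y).image fun s => (s.1 : F) * s.2 := by
        ext z
        simp only [Finset.mem_image, Finset.mem_product, hH, Fintype.mem_piFinset]
        constructor
        · rintro ⟨⟨x, y⟩, ⟨hx, hy⟩, rfl⟩
          exact ⟨(x 0, y), ⟨hx 0, hy⟩, by simp⟩
        · rintro ⟨⟨x, y⟩, ⟨hx, hy⟩, rfl⟩
          exact ⟨(fun _ => x, y), ⟨fun _ => hx, hy⟩, by simp⟩
      have h4 : H.card = (A \ B).card := by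
        rw [hH, Fintype.card_piFinset]
        simp
      rw [h3, Finset.card_product, h4] at h2
      push_cast at h2
      set I : ℝ := ((((A \ B) ×ˢ Y).image fun s => (s.1 : F) * s.2).card : ℝ) with hI
      have hI0 : 0 ≤ I := Nat.cast_nonneg _
      have h7 : (A.card : ℝ) ≤ 2 * (A \ B).card := by
        have := Finset.card_sdiff_add_card_eq_card hBA
        exact_mod_cast (by omega : A.card ≤ 2 * (A \ B).card)
      have hab : (0 : ℝ) < (A \ B).card := by linarith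
      have e1 : (Y.card : ℝ) ^ 2 = (Y.card : ℝ) ^ (1 + ε) * (Y.card : ℝ) ^ (1 - ε) := by
        rw [← Real.rpow_add hy0, ← Real.rpow_natCast]
        congr 1
        push_cast
        ring
      have e2 : (A.card : ℝ) = (A.card : ℝ) ^ ε * (A.card : ℝ) ^ (1 - ε) := by
        rw [← Real.rpow_add ha0, add_sub_cancel, Real.rpow_one]
      have hY1 : 0 < (Y.card : ℝ) ^ (1 + ε) := Real.rpow_pos_of_pos hy0 _
      have hY2 : 0 ≤ (Y.card : ℝ) ^ (1 - ε) := Real.rpow_nonneg hy0.le _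
      have hA1 : 0 < (A.card : ℝ) ^ ε := Real.rpow_pos_of_pos ha0 _
      have hA2 : 0 ≤ (A.card : ℝ) ^ (1 - ε) := Real.rpow_nonneg ha0.le _
      -- |A \ B| |Y|^(1-ε) ≤ C |A|^ε I
      have h8 : ((A \ B).card : ℝ) * (Y.card : ℝ) ^ (1 - ε) ≤ C * (A.card : ℝ) ^ ε * I := by
        have h9 : (((A \ B).card : ℝ) * (Y.card : ℝ) ^ (1 + ε)) *
            (((A \ B).card : ℝ) * (Y.card : ℝ) ^ (1 - ε)) ≤
            (((A \ B).card : ℝ) * (Y.card : ℝ) ^ (1 + ε)) * (C * (A.card : ℝ) ^ ε * I) := by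
          calc (((A \ B).card : ℝ) * (Y.card : ℝ) ^ (1 + ε)) *
              (((A \ B).card : ℝ) * (Y.card : ℝ) ^ (1 - ε))
              = (((A \ B).card : ℝ) * Y.card) ^ 2 := by
                rw [mul_pow, e1]
                ring
            _ ≤ _ := h2
            _ = _ := by ring
        exact le_of_mul_le_mul_left h9 (mul_pos hab hY1)
      have h10 : (A.card : ℝ) ^ ε * ((A.card : ℝ) ^ (1 - ε) * (Y.card : ℝ) ^ (1 - ε)) ≤
          (A.card : ℝ) ^ ε * (2 * C * I) := by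
        calc (A.card : ℝ) ^ ε * ((A.card : ℝ) ^ (1 - ε) * (Y.card : ℝ) ^ (1 - ε))
            = (A.card : ℝ) * (Y.card : ℝ) ^ (1 - ε) := by
              rw [← mul_assoc, ← e2]
          _ ≤ (2 * (A \ B).card) * (Y.card : ℝ) ^ (1 - ε) :=
              mul_le_mul_of_nonneg_right h7 hY2
          _ ≤ _ := by nlinarith
      have h11 := le_of_mul_le_mul_left h10 hA1
      have h12 : c * (2 * C) ≤ 1 := by
        rw [le_div_iff₀ (by positivity)] at hcC
        exact hcC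
      calc c * ((A.card : ℝ) ^ (1 - ε) * (Y.card : ℝ) ^ (1 - ε)) ≤ c * (2 * C * I) :=
            mul_le_mul_of_nonneg_left h11 hc0.le
        _ = (c * (2 * C)) * I := by ring
        _ ≤ 1 * I := mul_le_mul_of_nonneg_right h12 hI0
        _ = I := one_mul _
  refine ⟨?_, ?_, ?_, h5, ?_⟩
  · intro r ε hε hε1
    obtain ⟨C, hC, h⟩ := few_sums r ε hε hε1
    refine ⟨C, hC, ?_⟩
    intro A P hP hA0 F _ _ _ B hB w f
    refine (complex_le (Fintype.piFinset A) B w f).trans ?_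
    refine (h A P hP _ le_rfl (hprod r A hA0) F B hB (fun x => ‖w x‖) (fun b => ‖f b‖)
      fun _ _ => norm_nonneg _).trans (le_of_eq ?_)
    have h0 : 0 ≤ ∑ b ∈ B, ‖f b‖ := Finset.sum_nonneg fun _ _ => norm_nonneg _
    rw [Real.rpow_mul h0, Real.rpow_two]
  · intro r hr ε hε hε1
    obtain ⟨c, hc, h⟩ := growth r hr ε hε hε1
    refine ⟨c, hc, ?_⟩
    intro A hA hA0 m hm hmA
    rcases h A hA m hm hmA with h1 | h1
    · left
      intro H hHA F _ _ _ B hB
      have h2 := h1 H hHA (fun x hx => hprod r _ (fun _ => hA0) x (hHA hx)) F B hB (fun _ => 1)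
        (fun _ => 1) fun _ _ => zero_le_one
      have h3 := set_form H B ((A.card : ℝ) ^ ε / c) ε hε (by
        rw [div_mul_eq_mul_div, div_mul_eq_mul_div, le_div_iff₀ hc, mul_comm]
        exact h2)
      rw [hcast] at h3
      rw [div_mul_eq_mul_div, div_mul_eq_mul_div, le_div_iff₀ hc, mul_comm] at h3
      exact h3
    · right
      exact h1
  · intro r hr ε b hε hε1 hb
    obtain ⟨τ, hτ, C, hC, h⟩ := decomp r hr ε b hε hε1 hb
    refine ⟨τ, C, hτ, hC, ?_⟩
    intro A hA0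
    obtain ⟨B, hBA, h1, h2⟩ := h A
    refine ⟨B, hBA, ?_, ?_⟩
    · intro F _ _ _ X hX
      rw [← haE]
      exact h1 F X hX
    · intro H hHA F _ _ _ Y hY
      have h3 := set_form H Y _ ε hε (h2 H hHA (fun x hx => hprod r _
        (fun _ h => hA0 (Finset.sdiff_subset h)) x (hHA hx)) F Y hY (fun _ => 1)
        (fun _ => 1) fun _ _ => zero_le_one)
      rw [hcast] at h3
      exact h3
  · intro b hb
    obtain ⟨τ, c, hτ, hc, h⟩ := h5 (1 / (2 * (1 + b))) b (by positivity)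
      (by rw [div_le_one (by positivity)]; linarith) hb
    refine ⟨min τ (1 / 2), c, lt_min hτ (by norm_num), hc, ?_⟩
    intro A hA hA0 F _ _ _ X Y hX hY hY0 hXA hYA
    have ha1 : (1 : ℝ) ≤ A.card := by exact_mod_cast Finset.card_pos.2 hA
    have ha0 : (0 : ℝ) < A.card := by linarith
    have hx0 : (0 : ℝ) < X.card := by exact_mod_cast Finset.card_pos.2 hX
    have hy0 : (0 : ℝ) < Y.card := by exact_mod_cast Finset.card_pos.2 hY
    obtain ⟨A', hA', -, h1 | h1⟩ := h A hA0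
    · refine le_max_of_le_left ?_
      have h2 := h1 F X hXA
      have h3 : (((A' ×ˢ X).image fun s => (s.1 : F) + s.2).card : ℝ) ≤
          (((A ×ˢ X).image fun s => (s.1 : F) + s.2).card : ℝ) := by
        exact Nat.cast_le.2 (Finset.card_le_card (Finset.image_subset_image
          (Finset.product_subset_product hA' le_rfl)))
      rw [le_div_iff₀ hx0]
      have h4 : (A.card : ℝ) ^ min τ (1 / 2) ≤ (A.card : ℝ) ^ τ :=
        Real.rpow_le_rpow_of_exponent_le ha1 (min_le_left _ _)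
      calc c * (A.card : ℝ) ^ min τ (1 / 2) * X.card ≤ c * (A.card : ℝ) ^ τ * X.card := by gcongr
        _ = c * ((A.card : ℝ) ^ τ * X.card) := by ring
        _ ≤ _ := h2.trans h3
    · refine le_max_of_le_right ?_
      have h2 := h1 F Y hY hY0
      have h3 : (((A' ×ˢ Y).image fun s => (s.1 : F) * s.2).card : ℝ) ≤
          (((A ×ˢ Y).image fun s => (s.1 : F) * s.2).card : ℝ) := by
        exact Nat.cast_le.2 (Finset.card_le_card (Finset.image_subset_image
          (Finset.product_subset_product hA' le_rfl)))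
      rw [le_div_iff₀ hy0]
      set ε : ℝ := 1 / (2 * (1 + b)) with hεd
      have hε0 : 0 < ε := by positivity
      have h4 : (A.card : ℝ) ^ min τ (1 / 2) ≤ (A.card : ℝ) ^ (1 / 2 : ℝ) :=
        Real.rpow_le_rpow_of_exponent_le ha1 (min_le_right _ _)
      have h6 : (Y.card : ℝ) ^ ε ≤ (A.card : ℝ) ^ (b * ε) := by
        rw [Real.rpow_mul ha0.le]
        exact Real.rpow_le_rpow hy0.le hYA hε0.le
      have h7 : (A.card : ℝ) ^ (1 / 2 : ℝ) * (A.card : ℝ) ^ (b * ε) = (A.card : ℝ) ^ (1 - ε) := by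
        rw [← Real.rpow_add ha0]
        congr 1
        rw [hεd]
        field_simp
        ring
      have h8 : (Y.card : ℝ) = (Y.card : ℝ) ^ ε * (Y.card : ℝ) ^ (1 - ε) := by
        rw [← Real.rpow_add hy0, add_sub_cancel, Real.rpow_one]
      have hA2 : 0 ≤ (A.card : ℝ) ^ (1 / 2 : ℝ) := Real.rpow_nonneg ha0.le _
      have hY2 : 0 ≤ (Y.card : ℝ) ^ (1 - ε) := Real.rpow_nonneg hy0.le _
      calc c * (A.card : ℝ) ^ min τ (1 / 2) * Y.card ≤ c * (A.card : ℝ) ^ (1 / 2 : ℝ) * Y.card :=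
            mul_le_mul_of_nonneg_right (mul_le_mul_of_nonneg_left h4 hc.le) hy0.le
        _ = c * (A.card : ℝ) ^ (1 / 2 : ℝ) * ((Y.card : ℝ) ^ ε * (Y.card : ℝ) ^ (1 - ε)) := by
            rw [← h8]
        _ ≤ c * (A.card : ℝ) ^ (1 / 2 : ℝ) * ((A.card : ℝ) ^ (b * ε) * (Y.card : ℝ) ^ (1 - ε)) :=
            mul_le_mul_of_nonneg_left (mul_le_mul_of_nonneg_right h6 hY2) (mul_nonneg hc.le hA2)
        _ = c * (((A.card : ℝ) ^ (1 / 2 : ℝ) * (A.card : ℝ) ^ (b * ε)) * (Y.card : ℝ) ^ (1 - ε)) := by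
            ring
        _ = c * ((A.card : ℝ) ^ (1 - ε) * (Y.card : ℝ) ^ (1 - ε)) := by rw [h7]
        _ ≤ _ := h2.trans h3

end Pool.Agent.N551.Shelf.EveryPartner
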